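import Pool.Agent.N553.PC.Cut
import Pool.Agent.Y928.PN.Pairs
import Pool.Agent.Results.MP_e47f08_nt.AlternativePolynomial

/-!
# The digits of `ζ(3)/π³` and `8 G - π⁵/(18 ζ(3)) ± (2/3) π²` are not cut into few pieces of small linear complexity

Let `x 0 = ζ(3)/π³` and let `x 1`, `x 2` be the numbers `8 G - π⁵/(18 ζ(3)) ± (2/3) π²`, where `G` is
Catalan's constant. By the starting files at least two of these three numbers are irrational.

A sequence has linear complexity at most `m` if it satisfies a linear recurrence of order `m` over `ℚ`; a number is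
rational if and only if the sequence of its digits has finite linear complexity. By the starting result
`DigitComplexity` the linear complexities of the first `N` digits of two of the three numbers are large. Here we
consider devices with MANY recurrences: the first `N` digits are cut at some places into pieces, and every piece
satisfies a recurrence of order `m` of its own. (For example the recurrence may be found anew from the digits after each
failure of the last one, as the algorithm of Berlekamp and Massey does.)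

(1) If the first `N` digits in base `b` of `x 0` and `x k` (`k = 1` or `2`) are cut at the same `r` places, and on each
piece there is a common recurrence of order `m` for the two numbers, then
`N ≤ (4000 + 4000² + ⋯ + 4000^(r+1)) (m + C √((m+1) log (m+2)))`.

(2) The same with `r + s` and `m + n` if the digits of `x 0` are cut at `r` places into pieces with recurrences of order
`m`, and those of `x k` at `s` other places into pieces with recurrences of order `n`.

(3) If `θ + 17 c < 1` then at EVERY large scale `N`, in every base `b`, the first `N` digits of `x 0` or those of `x k`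
are not cut at `c log N` places into pieces with recurrences of order `N^θ`. Here `N ≥ N₀`, where `N₀` does not depend
on the base.

(4) With another constant in place of `17`: at every large scale this holds for two of the three numbers.

The proof: the simultaneous measures of the starting files (for `x 1`, `x 2` the measure of `π²`) and
`Pool.Agent.R473.FP.pieces` (starting library); (2) follows since sequences with recurrences of orders `m`, `n` have a
common recurrence of order `m + n` (`Pool.Agent.N553.PC.common`).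
-/

set_option autoImplicit false

open Finset

namespace Pool.Agent.Results.MP_e47f08_nt.PiecesOfSmallComplexity

/-- the `i`-th digit of `x` after the point in base `b` -/
noncomputable def digit (b : ℕ) (x : ℝ) (i : ℕ) : ℤ := ⌊x * (b : ℝ) ^ i⌋ % (b : ℤ)

/-- The `(u+1)`-st, …, `v`-th digits of `x` in base `b` satisfy the linear recurrence of order `m` with the
coefficients `c`. -/
def Recurrence (b : ℕ) (x : ℝ) (m : ℕ) (c : ℕ → ℚ) (u v : ℕ) : Prop :=
  ∀ i, u ≤ i → i + m < v →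
    (digit b x (i + m + 1) : ℚ) = ∑ l ∈ range m, c l * (digit b x (i + l + 1) : ℚ)

/-- Every block `u+1, …, v` of the first `N` places which contains no place `i + 1` with `i ∈ E` is such that
the digits of `x` at these places satisfy a linear recurrence of order `m` over `ℚ` (which may depend on
the block). So the first `N` digits are cut at the places in `E` into pieces of linear complexity at most `m`. -/
def Cut (b : ℕ) (x : ℝ) (N m : ℕ) (E : Finset ℕ) : Prop :=
  ∀ u v, u ≤ v → v ≤ N → (∀ i ∈ E, i < u ∨ v ≤ i) → ∃ c : ℕ → ℚ, Recurrence b x m c u v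

/-- The same for two numbers at once, with common recurrences. -/
def CommonCut (b : ℕ) (x y : ℝ) (N m : ℕ) (E : Finset ℕ) : Prop :=
  ∀ u v, u ≤ v → v ≤ N → (∀ i ∈ E, i < u ∨ v ≤ i) → ∃ c : ℕ → ℚ,
    Recurrence b x m c u v ∧ Recurrence b y m c u v

/-- The first `N` digits of `x` in base `b` are not cut at `c log N` or fewer places into pieces which satisfy
linear recurrences of order at most `N ^ θ`. -/
def Rough (θ c : ℝ) (b N : ℕ) (x : ℝ) : Prop :=
  ∀ (m : ℕ) (E : Finset ℕ), (m : ℝ) ≤ (N : ℝ) ^ θ → (E.card : ℝ) ≤ c * Real.log N → ¬ Cut b x N m E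

/-- `ζ(3)` -/
noncomputable def zeta3 : ℝ := ∑' j : ℕ, 1 / ((j : ℝ) + 1) ^ 3

/-- Catalan's constant -/
noncomputable def G : ℝ := ∑' j : ℕ, (-1 : ℝ) ^ j / (2 * (j : ℝ) + 1) ^ 2

/-- `x 0 = ζ(3)/π³`, `x 1 = 8 G - π⁵/(18 ζ(3)) + (2/3) π²`, `x 2 = 8 G - π⁵/(18 ζ(3)) - (2/3) π²` -/
noncomputable def x (i : ℕ) : ℝ :=
  if i = 0 then zeta3 / Real.pi ^ 3
  else if i = 1 then 8 * G - Real.pi ^ 5 / (18 * zeta3) + 2 / 3 * Real.pi ^ 2
  else 8 * G - Real.pi ^ 5 / (18 * zeta3) - 2 / 3 * Real.pi ^ 2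

theorem log_num : 2 * Real.log 4000 < 17 := by
  suffices h : Real.log 4000 < 17 / 2 by linarith
  rw [Real.log_lt_iff_lt_exp (by positivity)]
  have h2 : Real.exp (17 / 2) ^ 2 = Real.exp 1 ^ 17 := by
    rw [← Real.exp_nat_mul, ← Real.exp_nat_mul]
    norm_num
  have h3 := Real.exp_one_gt_d9
  have h4 : (4000 : ℝ) ^ 2 < Real.exp (17 / 2) ^ 2 := by
    rw [h2]
    calc (4000 : ℝ) ^ 2 < 2.7182818283 ^ 17 := by norm_num
      _ ≤ _ := pow_le_pow_left₀ (by norm_num) h3.le 17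
  exact lt_of_pow_lt_pow_left₀ 2 (Real.exp_pos _).le h4

/-- the measure of a pair of numbers -/
theorem of_pair (y z μ c : ℝ) (h : ∀ q : ℕ, 1 ≤ q → ∀ p p' : ℤ,
      c ≤ (q : ℝ) ^ (μ - 1) * |(q : ℝ) * y - p| ∨ c ≤ (q : ℝ) ^ (μ - 1) * |(q : ℝ) * z - p'|) :
    Pool.Agent.W47.JL.Meas 2 ![y, z] μ c 0 := by
  intro q hq p
  rcases h q hq (p 0) (p 1) with h1 | h1
  · refine ⟨0, ?_⟩
    rw [Real.rpow_zero, mul_one]
    exact h1
  · refine ⟨1, ?_⟩
    rw [Real.rpow_zero, mul_one]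
    exact h1

/-- the bounds for a pair of numbers with a simultaneous measure -/
theorem pair_bounds (y z μ c0 : ℝ) (hμ : 1 < μ) (hc0 : 0 < c0)
    (hM : Pool.Agent.W47.JL.Meas 2 ![y, z] μ c0 0) :
    ∃ C : ℝ, 0 < C ∧ ∀ b : ℕ, 2 ≤ b → ∀ N : ℕ,
      (∀ (m : ℕ) (E : Finset ℕ), CommonCut b y z N m E →
        (N : ℝ) ≤ (∑ i ∈ range (E.card + 1), μ ^ (i + 1)) *
          (m + C * Real.sqrt (((m : ℝ) + 1) * Real.log ((m : ℝ) + 2)))) ∧
      ∀ (m n : ℕ) (E F : Finset ℕ), Cut b y N m E → Cut b z N n F →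
        (N : ℝ) ≤ (∑ i ∈ range (E.card + F.card + 1), μ ^ (i + 1)) *
          ((m + n : ℕ) +
            C * Real.sqrt ((((m + n : ℕ) : ℝ) + 1) * Real.log (((m + n : ℕ) : ℝ) + 2))) := by
  obtain ⟨C1, hC1, h1⟩ := Pool.Agent.R473.FP.pieces 2 ![y, z] μ c0 0 hμ hc0 le_rfl hM
  obtain ⟨C2, hC2, h2⟩ := Pool.Agent.N553.PC.cut_sep 2 ![y, z] μ c0 0 hμ hc0 le_rfl hM
  have hμ0 : 0 < μ := by linarith
  have mono : ∀ (C' : ℝ) (m : ℕ) (S N : ℝ), C' ≤ max C1 C2 → 0 ≤ S →
      N ≤ S * (m + C' * Pool.Agent.W47.JL.err m) →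
      N ≤ S * (m + max C1 C2 * Real.sqrt (((m : ℝ) + 1) * Real.log ((m : ℝ) + 2))) := by
    intro C' m S N hC' hS h
    refine h.trans (mul_le_mul_of_nonneg_left ?_ hS)
    have h0 : 0 ≤ Real.sqrt (((m : ℝ) + 1) * Real.log ((m : ℝ) + 2)) := Real.sqrt_nonneg _
    exact add_le_add le_rfl (mul_le_mul_of_nonneg_right hC' h0)
  refine ⟨max C1 C2, lt_max_of_lt_left hC1, fun b hb N => ⟨fun m E hE => ?_, fun m n E F hE hF => ?_⟩⟩
  · refine mono C1 m _ _ (le_max_left _ _) (Finset.sum_nonneg fun i _ => by positivity) ?_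
    refine h1 b hb N m E.card E le_rfl fun u v huv hvN hE' => ?_
    obtain ⟨c, hc, hc'⟩ := hE u v huv hvN hE'
    refine ⟨c, fun j => ?_⟩
    fin_cases j
    · exact fun i hi hiv => hc i hi hiv
    · exact fun i hi hiv => hc' i hi hiv
  · refine mono C2 (m + n) _ _ (le_max_right _ _) (Finset.sum_nonneg fun i _ => by positivity) ?_
    have h := h2 b hb N ![m, n] ![E, F] (by
      intro j
      fin_cases j
      · exact hE
      · exact hF)
    rw [Fin.sum_univ_two, Fin.sum_univ_two] at h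
    exact h

/-- at every large scale one of the two numbers is rough -/
theorem pair_rough (y z μ c0 : ℝ) (hμ : 1 < μ) (hc0 : 0 < c0)
    (hM : Pool.Agent.W47.JL.Meas 2 ![y, z] μ c0 0) (θ c : ℝ) (hθ : 0 ≤ θ) (hc : 0 ≤ c)
    (hlt : c * (2 * Real.log μ) + θ < 1) :
    ∃ N₀ : ℕ, ∀ b : ℕ, 2 ≤ b → ∀ N : ℕ, N₀ ≤ N → Rough θ c b N y ∨ Rough θ c b N z := by
  obtain ⟨N₀, h⟩ := Pool.Agent.N553.PC.cut_large 2 ![y, z] μ c0 0 hμ hc0 le_rfl hM θ c
    hθ hc (by push_cast; exact hlt)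
  refine ⟨N₀, fun b hb N hN => ?_⟩
  obtain ⟨j, hj⟩ := h b hb N hN
  fin_cases j
  · exact Or.inl fun m E hm hE => hj m E hm hE
  · exact Or.inr fun m E hm hE => hj m E hm hE

/-- the simultaneous measures for `x 0` and one of the other numbers -/
theorem meas (k : ℕ) (hk : k = 1 ∨ k = 2) : ∃ c : ℝ, 0 < c ∧
    Pool.Agent.W47.JL.Meas 2 ![x 0, x k] 4000 c 0 := by
  obtain ⟨ε, hε, hxk⟩ : ∃ ε : ℝ, (ε = 1 ∨ ε = -1) ∧
      x k = 8 * G - Real.pi ^ 5 / (18 * zeta3) + ε * (2 / 3 * Real.pi ^ 2) := by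
    rcases hk with rfl | rfl
    · exact ⟨1, Or.inl rfl, by simp only [x, one_ne_zero, if_false, if_true, one_mul]⟩
    · refine ⟨-1, Or.inr rfl, ?_⟩
      simp only [x, OfNat.ofNat_ne_zero, OfNat.ofNat_ne_one, if_false]
      ring
  have hx0 : x 0 = zeta3 / Real.pi ^ 3 := by
    simp only [x, if_true]
  obtain ⟨⟨c, hc, h1⟩, -⟩ := Pool.Agent.Results.MP_e47f08_nt.AlternativePolynomial.result ε hε
  refine ⟨c, hc, of_pair _ _ _ _ fun q hq p p' => ?_⟩
  have hq0 : (0 : ℝ) < q := by exact_mod_cast hq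
  have h2 := h1 p' p q q hq hq
  have e1 : (q : ℝ) ^ ((4000 : ℝ) - 1) = (q : ℝ) ^ 3999 := by
    rw [← Real.rpow_natCast]
    norm_num
  have e2 : ∀ (y : ℝ) (p : ℤ), |(q : ℝ) * y - p| = q * |y - (p : ℝ) / q| := by
    intro y p
    rw [← abs_of_pos hq0, ← abs_mul, abs_of_pos hq0]
    congr 1
    field_simp
  have h3 : c / ((q : ℝ) * q) ^ 2000 ≤ max |x 0 - (p : ℝ) / (q : ℝ)| |x k - (p' : ℝ) / (q : ℝ)| := by
    rw [hx0, hxk]
    exact h2
  rw [div_le_iff₀ (by positivity)] at h3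
  have e3 : ((q : ℝ) * q) ^ 2000 = (q : ℝ) ^ 3999 * q := by
    rw [← pow_succ, ← sq, ← pow_mul]
  rw [e3] at h3
  rw [e1, e2, e2]
  rcases max_choice |x 0 - (p : ℝ) / (q : ℝ)| |x k - (p' : ℝ) / (q : ℝ)| with h4 | h4
  · rw [h4] at h3
    left
    calc c ≤ |x 0 - (p : ℝ) / q| * ((q : ℝ) ^ 3999 * q) := h3
      _ = _ := by ring
  · rw [h4] at h3
    right
    calc c ≤ |x k - (p' : ℝ) / q| * ((q : ℝ) ^ 3999 * q) := h3
      _ = _ := by ring

/-- the simultaneous measure for `x 1` and `x 2` -/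
theorem meas12 : ∃ μ c : ℝ, 1 < μ ∧ 0 < c ∧ Pool.Agent.W47.JL.Meas 2 ![x 1, x 2] μ c 0 := by
  obtain ⟨κ, c3, hκ, hc3, hpi⟩ := Pool.Agent.Y928.PN.pi_pair
  have hx : x 1 - x 2 = 4 / 3 * Real.pi ^ 2 := by
    simp only [x, one_ne_zero, if_false, if_true, OfNat.ofNat_ne_zero, OfNat.ofNat_ne_one]
    ring
  refine ⟨κ + 2, c3, by linarith, hc3, of_pair _ _ _ _ fun q hq p p' => ?_⟩
  have h := hpi (x 1) (x 2) hx q hq p p'
  have hq1 : (1 : ℝ) ≤ q := by exact_mod_cast hq
  have hle : (q : ℝ) ^ κ ≤ (q : ℝ) ^ (κ + 2 - 1) :=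
    Real.rpow_le_rpow_of_exponent_le hq1 (by linarith)
  rcases max_choice |(q : ℝ) * x 1 - p| |(q : ℝ) * x 2 - p'| with h3 | h3
  · rw [h3] at h
    exact Or.inl (h.trans (mul_le_mul_of_nonneg_right hle (abs_nonneg _)))
  · rw [h3] at h
    exact Or.inr (h.trans (mul_le_mul_of_nonneg_right hle (abs_nonneg _)))

/-- **The digits of `ζ(3)/π³` and `8 G - π⁵/(18 ζ(3)) ± (2/3) π²` are not cut into few pieces of small linear
complexity.** -/
theorem result :
    (∃ C : ℝ, 0 < C ∧ ∀ k : ℕ, (k = 1 ∨ k = 2) → ∀ b : ℕ, 2 ≤ b → ∀ N : ℕ,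
      -- (1) common places, common recurrences
      (∀ (m : ℕ) (E : Finset ℕ), CommonCut b (x 0) (x k) N m E →
        (N : ℝ) ≤ (∑ i ∈ range (E.card + 1), (4000 : ℝ) ^ (i + 1)) *
          (m + C * Real.sqrt (((m : ℝ) + 1) * Real.log ((m : ℝ) + 2)))) ∧
      -- (2) for each of the two numbers places and recurrences of its own
      ∀ (m n : ℕ) (E F : Finset ℕ), Cut b (x 0) N m E → Cut b (x k) N n F →
        (N : ℝ) ≤ (∑ i ∈ range (E.card + F.card + 1), (4000 : ℝ) ^ (i + 1)) *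
          ((m + n : ℕ) +
            C * Real.sqrt ((((m + n : ℕ) : ℝ) + 1) * Real.log (((m + n : ℕ) : ℝ) + 2)))) ∧
    -- (3) at every large scale one of `x 0`, `x k` is rough
    (∀ θ c : ℝ, 0 ≤ θ → 0 ≤ c → θ + 17 * c < 1 → ∃ N₀ : ℕ, ∀ b : ℕ, 2 ≤ b → ∀ N : ℕ, N₀ ≤ N →
      ∀ k : ℕ, (k = 1 ∨ k = 2) → Rough θ c b N (x 0) ∨ Rough θ c b N (x k)) ∧
    -- (4) at every large scale two of the three numbers are rough
    ∃ K : ℝ, 0 < K ∧ ∀ θ c : ℝ, 0 ≤ θ → 0 ≤ c → θ + K * c < 1 → ∃ N₀ : ℕ, ∀ b : ℕ, 2 ≤ b →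
      ∀ N : ℕ, N₀ ≤ N → ∃ i j : ℕ, i < j ∧ j ≤ 2 ∧ Rough θ c b N (x i) ∧ Rough θ c b N (x j) := by
  obtain ⟨c1, hc1, hM1⟩ := meas 1 (Or.inl rfl)
  obtain ⟨c2, hc2, hM2⟩ := meas 2 (Or.inr rfl)
  obtain ⟨μ, c3, hμ, hc3, hM3⟩ := meas12
  refine ⟨?_, ?_, ?_⟩
  · obtain ⟨C1, hC1, h1⟩ := pair_bounds (x 0) (x 1) 4000 c1 (by norm_num) hc1 hM1
    obtain ⟨C2, hC2, h2⟩ := pair_bounds (x 0) (x 2) 4000 c2 (by norm_num) hc2 hM2
    have mono : ∀ (C' : ℝ) (m : ℕ) (S N : ℝ), C' ≤ max C1 C2 → 0 ≤ S →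
        N ≤ S * (m + C' * Real.sqrt (((m : ℝ) + 1) * Real.log ((m : ℝ) + 2))) →
        N ≤ S * (m + max C1 C2 * Real.sqrt (((m : ℝ) + 1) * Real.log ((m : ℝ) + 2))) := by
      intro C' m S N hC' hS h
      refine h.trans (mul_le_mul_of_nonneg_left ?_ hS)
      have h0 : 0 ≤ Real.sqrt (((m : ℝ) + 1) * Real.log ((m : ℝ) + 2)) := Real.sqrt_nonneg _
      exact add_le_add le_rfl (mul_le_mul_of_nonneg_right hC' h0)
    refine ⟨max C1 C2, lt_max_of_lt_left hC1, fun k hk b hb N => ?_⟩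
    rcases hk with rfl | rfl
    · exact ⟨fun m E hE => mono C1 m _ _ (le_max_left _ _)
          (Finset.sum_nonneg fun i _ => by positivity) ((h1 b hb N).1 m E hE),
        fun m n E F hE hF => mono C1 (m + n) _ _ (le_max_left _ _)
          (Finset.sum_nonneg fun i _ => by positivity) ((h1 b hb N).2 m n E F hE hF)⟩
    · exact ⟨fun m E hE => mono C2 m _ _ (le_max_right _ _)
          (Finset.sum_nonneg fun i _ => by positivity) ((h2 b hb N).1 m E hE),
        fun m n E F hE hF => mono C2 (m + n) _ _ (le_max_right _ _)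
          (Finset.sum_nonneg fun i _ => by positivity) ((h2 b hb N).2 m n E F hE hF)⟩
  · intro θ c hθ hc hlt
    have hlt' : c * (2 * Real.log 4000) + θ < 1 := by
      have h1 := mul_le_mul_of_nonneg_left log_num.le hc
      linarith
    obtain ⟨N1, h1⟩ := pair_rough (x 0) (x 1) 4000 c1 (by norm_num) hc1 hM1 θ c hθ hc hlt'
    obtain ⟨N2, h2⟩ := pair_rough (x 0) (x 2) 4000 c2 (by norm_num) hc2 hM2 θ c hθ hc hlt'
    refine ⟨max N1 N2, fun b hb N hN k hk => ?_⟩
    rcases hk with rfl | rfl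
    · exact h1 b hb N ((le_max_left _ _).trans hN)
    · exact h2 b hb N ((le_max_right _ _).trans hN)
  · refine ⟨max 17 (2 * Real.log μ), lt_max_of_lt_left (by norm_num), fun θ c hθ hc hlt => ?_⟩
    have hK1 : 17 * c ≤ max 17 (2 * Real.log μ) * c := mul_le_mul_of_nonneg_right (le_max_left _ _) hc
    have hK2 : 2 * Real.log μ * c ≤ max 17 (2 * Real.log μ) * c :=
      mul_le_mul_of_nonneg_right (le_max_right _ _) hc
    have hlt' : c * (2 * Real.log 4000) + θ < 1 := by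
      have h1 := mul_le_mul_of_nonneg_left log_num.le hc
      linarith
    have hlt'' : c * (2 * Real.log μ) + θ < 1 := by
      have e : c * (2 * Real.log μ) = 2 * Real.log μ * c := by ring
      rw [e]
      linarith
    obtain ⟨N1, h1⟩ := pair_rough (x 0) (x 1) 4000 c1 (by norm_num) hc1 hM1 θ c hθ hc hlt'
    obtain ⟨N2, h2⟩ := pair_rough (x 0) (x 2) 4000 c2 (by norm_num) hc2 hM2 θ c hθ hc hlt'
    obtain ⟨N3, h3⟩ := pair_rough (x 1) (x 2) μ c3 hμ hc3 hM3 θ c hθ hc hlt''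
    refine ⟨max N1 (max N2 N3), fun b hb N hN => ?_⟩
    have hN1 : N1 ≤ N := (le_max_left _ _).trans hN
    have hN2 : N2 ≤ N := (le_max_left N2 N3).trans ((le_max_right _ _).trans hN)
    have hN3 : N3 ≤ N := (le_max_right N2 N3).trans ((le_max_right _ _).trans hN)
    rcases h1 b hb N hN1 with hA | hA
    · rcases h3 b hb N hN3 with hB | hB
      · exact ⟨0, 1, by norm_num, by norm_num, hA, hB⟩
      · exact ⟨0, 2, by norm_num, by norm_num, hA, hB⟩
    · rcases h2 b hb N hN2 with hB | hB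
      · exact ⟨0, 1, by norm_num, by norm_num, hB, hA⟩
      · exact ⟨1, 2, by norm_num, by norm_num, hA, hB⟩

end Pool.Agent.Results.MP_e47f08_nt.PiecesOfSmallComplexity
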