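import Pool.Agent.N743.SS.Z3P
import Pool.Agent.TH957.PB.Alt

/-!
# `ζ(3)/π³` and `8 G - π⁵/(18 ζ(3)) ± (2/3) π²` at all scales

A number `u` is near at the scale `X` (with parameter `θ`) if some fraction `p / q` with `q ≤ X ^ θ` lies within `1 / X`
of `u`. Let `x 0 = ζ(3)/π³` and let `x 1`, `x 2` be the numbers `8 G - π⁵/(18 ζ(3)) ± (2/3) π²`, `G` being Catalan's
constant. We show, for two of the numbers one of which is `x 0`, if `2000 θ (M + 1) < 1`, and for all three, with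
another constant in place of `2000` (`M > 1`):

* At every large scale at most one of the numbers is near.
* If one of the numbers is rational then it is near at all large scales and the others are near at no large scale.
* Otherwise every large scale `X` at which one of the numbers is near is followed by a scale `Z ≥ X` such that
  between `X` and `Z` no other of the numbers is near, and between `Z` and `Z ^ M` none of the numbers is near; and
  there are arbitrarily large such `Z`.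

The proof combines the pair measure of the starting library (`AlternativePolynomial`) with the combinatorial
engine `Pool.Agent.N743.engine`.
-/

set_option autoImplicit false

namespace Pool.Agent.Results.MP_e47f08_nt.ScaleDichotomy

open Pool.Agent.N743

/-- `ζ(3)` -/
noncomputable def zeta3 : ℝ := ∑' j : ℕ, 1 / ((j : ℝ) + 1) ^ 3

/-- Catalan's constant -/
noncomputable def G : ℝ := ∑' j : ℕ, (-1 : ℝ) ^ j / (2 * (j : ℝ) + 1) ^ 2

/-- the numbers `ζ(3)/π³`, `8 G - π⁵/(18 ζ(3)) + (2/3) π²`, `8 G - π⁵/(18 ζ(3)) - (2/3) π²` -/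
noncomputable def x : Fin 3 → ℝ :=
  ![zeta3 / Real.pi ^ 3, 8 * G - Real.pi ^ 5 / (18 * zeta3) + 2 / 3 * Real.pi ^ 2,
    8 * G - Real.pi ^ 5 / (18 * zeta3) - 2 / 3 * Real.pi ^ 2]

/-- **The scale dichotomy** for `ζ(3)/π³` and `8 G - π⁵/(18 ζ(3)) ± (2/3) π²`. -/
theorem result :
    (∀ j : Fin 3, j ≠ 0 → ∀ θ M : ℝ, 0 < θ → 1 < M → 2000 * θ * (M + 1) < 1 →
      Dichotomy (fun i : Fin 2 => IsRat (![x 0, x j] i)) (fun X i => RatNear θ X (![x 0, x j] i)) M) ∧
    ∃ κ : ℝ, 2000 ≤ κ ∧ ∀ θ M : ℝ, 0 < θ → 1 < M → κ * θ * (M + 1) < 1 →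
      Dichotomy (fun i => IsRat (x i)) (fun X i => RatNear θ X (x i)) M := by
  have key : ∀ ε : ℝ, (ε = 1 ∨ ε = -1) → ∃ c : ℝ, 0 < c ∧ ∀ (a b : ℤ) (q s : ℕ), 0 < q → 0 < s →
      c * ((q : ℝ) * (s : ℝ)) ^ (-(2000 : ℝ)) ≤ max |zeta3 / Real.pi ^ 3 - a / q|
        |8 * G - Real.pi ^ 5 / (18 * zeta3) + ε * (2 / 3 * Real.pi ^ 2) - b / s| := by
    intro ε hε
    obtain ⟨c, hc, h⟩ := Pool.Agent.TH957.PB.alt ε hε
    refine ⟨c, hc, fun a b q s hq hs => ?_⟩
    have h1 := h b a s q (by exact_mod_cast hs) (by exact_mod_cast hq)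
    simp only [Int.cast_natCast] at h1
    rw [mul_comm (s : ℝ)] at h1
    exact h1
  have e1 : x 1 = 8 * G - Real.pi ^ 5 / (18 * zeta3) + 1 * (2 / 3 * Real.pi ^ 2) := by
    show 8 * G - Real.pi ^ 5 / (18 * zeta3) + 2 / 3 * Real.pi ^ 2 = _
    ring
  have e2 : x 2 = 8 * G - Real.pi ^ 5 / (18 * zeta3) + -1 * (2 / 3 * Real.pi ^ 2) := by
    show 8 * G - Real.pi ^ 5 / (18 * zeta3) - 2 / 3 * Real.pi ^ 2 = _
    ring
  have k1 := key 1 (Or.inl rfl)
  have k2 := key (-1) (Or.inr rfl)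
  rw [← e1] at k1
  rw [← e2] at k2
  have k1' : ∃ c : ℝ, 0 < c ∧ ∀ (a b : ℤ) (q s : ℕ), 0 < q → 0 < s →
      c * ((q : ℝ) * (s : ℝ)) ^ (-(2000 : ℝ)) ≤ max |x 0 - a / q| |x 1 - b / s| := k1
  have k2' : ∃ c : ℝ, 0 < c ∧ ∀ (a b : ℤ) (q s : ℕ), 0 < q → 0 < s →
      c * ((q : ℝ) * (s : ℝ)) ^ (-(2000 : ℝ)) ≤ max |x 0 - a / q| |x 2 - b / s| := k2
  refine ⟨fun j hj θ M hθ hM1 hM => ?_, ?_⟩
  · have hk : ∃ c : ℝ, 0 < c ∧ ∀ (a b : ℤ) (q s : ℕ), 0 < q → 0 < s →
        c * ((q : ℝ) * (s : ℝ)) ^ (-(2000 : ℝ)) ≤ max |x 0 - a / q| |x j - b / s| := by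
      fin_cases j
      · exact absurd rfl hj
      · exact k1'
      · exact k2'
    obtain ⟨c, hc, h⟩ := hk
    have main := SS.dichotomy_pair (x 0) (x j) 1 1 le_rfl le_rfl 2000 (by norm_num) (fun ε hε =>
      ⟨c, hc, fun p r q s hq hs => ?_⟩) θ M hθ hM1 hM
    · have e3 : (fun X i => RatNear (θ / ((![1, 1] : Fin 2 → ℕ) i : ℕ)) X ((![x 0, x j] : Fin 2 → ℝ) i)) =
          fun X i => RatNear θ X ((![x 0, x j] : Fin 2 → ℝ) i) := by
        funext X i
        fin_cases i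
        · simp
        · simp
      rw [e3] at main
      exact main
    · refine le_trans ?_ (h p r q s hq hs)
      have hq1 : (1 : ℝ) ≤ q := by exact_mod_cast hq
      have hs1 : (1 : ℝ) ≤ s := by exact_mod_cast hs
      rw [pow_one, pow_one]
      refine mul_le_mul_of_nonneg_left ?_ hc.le
      exact Real.rpow_le_rpow_of_exponent_le (by nlinarith) (by linarith)
  · obtain ⟨κ, hκ, h⟩ := SS.three_pi 2000 (by norm_num)
    exact ⟨κ, hκ, h x (by rw [e1, e2]; ring) k1' k2'⟩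

end Pool.Agent.Results.MP_e47f08_nt.ScaleDichotomy
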