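import Mathlib
import Pool.Agent.X255.RH.Main
import Pool.Agent.N534.ZI.Ind

/-!
# The numbers `π^x`, `ζ(x)`, `ζ'(x)`, … at all roots of almost all integral polynomials

The number `ζ(3) / π³` is the value at `x = 3` of the function `ζ(x) / π^x`, whose values at `x = 2, 4, 6, …` are rational. Let `c ≠ 1` be a
positive real number, for instance `c = π`. We consider the numbers `c^x, ζ(x), ζ'(x), …, ζ^(n - 1)(x)` at ALL the roots `x ≠ 1` of an integral
polynomial of degree `g`; so `x` runs through algebraic numbers of degree `g` with all their conjugates (rational numbers for `g = 1`).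

We prove: for almost all integral polynomials with coefficients at most `T` these numbers, at all roots `x` together, satisfy no algebraic
relation over number fields whose degree and whose field degree is at most `ω(T)` and whose height is at most `T ^ ω(T)`, where `ω(T) → ∞`; the
coefficients of the relations may contain arbitrary given complex numbers `ξ_0, ξ_1, …`, for instance the powers of `π`. In particular (`c = π`)
none of the ratios `ζ(x) / π^x` is a quotient of two algebraic integers in this range.

The proof is an application of `Pool.Agent.X255.RH.main_all` (values of algebraically independent functions at the roots of almost all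
polynomials). The functions `z, c^z, ζ, ζ', …` are algebraically independent over `ℂ` by Voronin's universality theorem
(`Pool.Agent.N534.ZI.aindep`).
-/

set_option autoImplicit false

open Polynomial Filter Topology NumberField

namespace Pool.Agent.Results.MP_e47f08_nt.ZetaAtAllRoots

/-- The integral vectors `a = (a_0, …, a_g)` with `|a_i| ≤ T`. -/
noncomputable def box (g T : ℕ) : Finset (Fin (g + 1) → ℤ) := Fintype.piFinset fun _ => Finset.Icc (-(T : ℤ)) (T : ℤ)

/-- The polynomial `a_0 + a_1 x + … + a_g x^g`. -/
noncomputable def poly {g : ℕ} (a : Fin (g + 1) → ℤ) : ℂ[X] := ∑ i, C (a i : ℂ) * X ^ (i : ℕ)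

/-- The complex numbers different from `1`. -/
def dom : Set ℂ := {1}ᶜ

/-- The roots different from `1` of the polynomial with the coefficients `a`. -/
noncomputable def roots {g : ℕ} (a : Fin (g + 1) → ℤ) : Finset ℂ := by
  classical exact (poly a).roots.toFinset.filter fun z => z ∈ dom

/-- The function `c^x` (index `none`) and the derivatives `ζ^(k)(x)`, `k < n`, of the Riemann zeta function (index `some k`). -/
noncomputable def values (c : ℝ) (n : ℕ) : Option (Fin n) → ℂ → ℂ
  | none => fun x => (c : ℂ) ^ x
  | some k => iteratedDeriv k riemannZeta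

/-- The numbers `x q` satisfy no relation of degree at most `k` in each of them with coefficients `∑_{b < k} ξ_b c_b`, where the `c_b` are
integers of a number field of degree at most `k` all of whose conjugates are at most `T ^ k`, except the relations all of whose coefficients
vanish. -/
def NoRelation {Q : Type} [Fintype Q] [DecidableEq Q] (ξ : ℕ → ℂ) (k : ℕ) (T : ℝ) (x : Q → ℂ) : Prop :=
  ∀ (F : Type) [Field F] [NumberField F], Module.finrank ℚ F ≤ k → ∀ (io : F →+* ℂ)
    (c : (Q → Fin (k + 1)) → Fin k → 𝓞 F), (∀ l b (φ : F →+* ℂ), ‖φ (c l b : F)‖ ≤ T ^ k) →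
    ∑ l, (∑ b : Fin k, ξ b * io (c l b : F)) * ∏ q, x q ^ (l q : ℕ) = 0 → ∀ l, ∑ b : Fin k, ξ b * io (c l b : F) = 0

/-- The polynomial with the coefficients `a` has degree `g` and simple roots, and there is no relation between the numbers `c^x`, `ζ(x)`, …,
`ζ^(n - 1)(x)` at all its roots `x ≠ 1` together. -/
def Good {g : ℕ} (c : ℝ) (n : ℕ) (ξ : ℕ → ℂ) (k : ℕ) (T : ℝ) (a : Fin (g + 1) → ℤ) : Prop :=
  a (Fin.last g) ≠ 0 ∧ (poly a).Separable ∧
    NoRelation ξ k T fun q : {x // x ∈ roots a} × Option (Fin n) => values c n q.2 q.1

variable {c : ℝ} {n : ℕ}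

theorem zeta_an : AnalyticOnNhd ℂ riemannZeta dom :=
  DifferentiableOn.analyticOnNhd (fun _ hz => (differentiableAt_riemannZeta hz).differentiableWithinAt) isOpen_compl_singleton

theorem an (hc0 : 0 < c) (v : Option (Fin n)) : AnalyticOnNhd ℂ (values c n v) dom := by
  cases v with
  | none =>
    intro z hz
    have hc : (c : ℂ) ∈ Complex.slitPlane := Complex.ofReal_mem_slitPlane.2 hc0
    exact analyticAt_const.cpow analyticAt_id hc
  | some k =>
    change AnalyticOnNhd ℂ (iteratedDeriv k riemannZeta) _
    rw [iteratedDeriv_eq_iterate]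
    exact zeta_an.iterated_deriv k

theorem conn : IsPreconnected dom :=
  (isConnected_compl_singleton_of_one_lt_rank (by rw [Complex.rank_real_complex]; norm_num) (1 : ℂ)).isPreconnected

theorem ind (hc0 : 0 < c) (hc1 : c ≠ 1) (n : ℕ) : Pool.Agent.X255.RH.Indep dom (values c n) := by
  refine Pool.Agent.X255.RH.indep_of_aindepS fun P hP => Pool.Agent.N534.ZI.aindep c hc0 hc1 n P fun z hz => ?_
  have h1 := hP z hz
  have h2 : (fun o : Option (Option (Fin n)) => o.elim z fun j => Pool.Agent.N534.ZI.fz c n j z) =
      fun o : Option (Option (Fin n)) => o.elim z fun j => values c n j z := by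
    funext o
    rcases o with _ | _ | k <;> rfl
  rw [h2]
  exact h1

open scoped Classical in
/-- **All roots of almost all polynomials.** Let `c ≠ 1` be a positive number, for instance `π`. For every `n`, every degree `g ≥ 1` and all
complex numbers `ξ_0, ξ_1, …` there is a function `ω(T) → ∞` such that among the `(2 T + 1)^(g + 1)` integral polynomials with coefficients at
most `T` at most the proportion `1 / ω(T)` is not good. -/
theorem result (c : ℝ) (hc0 : 0 < c) (hc1 : c ≠ 1) (n g : ℕ) (hg : 0 < g) (ξ : ℕ → ℂ) :
    ∃ ω : ℕ → ℕ, Tendsto ω atTop atTop ∧ Monotone ω ∧ ∀ T : ℕ,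
      ω T * ((box g T).filter fun a => ¬ Good c n ξ (ω T) T a).card ≤ (box g T).card :=
  Pool.Agent.X255.RH.main_all hg conn isOpen_compl_singleton (fun _ => dom)
    (fun _ => Pool.Agent.X255.RH.tame_of_discrete fun _ => (Set.finite_singleton 1).inter_of_left _) (an hc0) (ind hc0 hc1 n) ξ

end Pool.Agent.Results.MP_e47f08_nt.ZetaAtAllRoots
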